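import Pool.Agent.Run7.h902.CzSemi

/-!
# MP_1fe969_ag: semisimplicity of the Frobenius is a question on two-dimensional moduli spaces of
configurations of points

Fix prime numbers `p` and `ℓ`. For a scheme `X` of finite type over `𝔽_p` let
`V X = Gr^W_2 H^2_c(X ⊗ 𝔽̄_p, ℚ_ℓ)`, the quotient of weight two of the cohomology with compact support, with
the action of the Frobenius. It is `H^2` if `X` is smooth and projective. A surface over `𝔽_q`
is regarded as a surface over `𝔽_p`: then `V` is the induced representation, which is semisimple if and
only if the original one is.

`FrameModuli 𝔽_p A`: `Spec A` is a moduli space over `𝔽_p` of configurations of points in the projective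
plane: the points `(1:0:0)`, `(0:1:0)`, `(0:0:1)`, `(1:1:1)` and finitely many points moving in given
Schubert cells `(1:x:y)`, `(0:1:y)`, `(0:0:1)`, such that every triple of points is prescribed to be
collinear or not collinear: the realization space of a matroid of rank `3` modulo `PGL_3`.

Theorem: the Frobenius acts semisimply on `H^2` for all smooth projective surfaces over finite fields of
characteristic `p` if and only if it acts semisimply on `Gr^W_2 H^2_c` of the smooth integral
realization spaces over `𝔽_p` of dimension at most `2`.

Proof. For an open subscheme `U` of a smooth projective surface `Y` the space `V U` is a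
subspace of `H^2(Y)`, and `H^2(Y)` is generated by `V U` and the Néron-Severi group, by the Hodge index
theorem; so semisimplicity is a birational invariant of surfaces in this sense. Every integral scheme over
`𝔽_p` has a dense open subscheme which is ISOMORPHIC to a smooth realization space without further
fixed points (an exact form of the universality theorem of Mnev, proved in `CuRing`, `CuGad`, `CuMain`,
`CbOpen`).
-/

set_option autoImplicit false

open CategoryTheory AlgebraicGeometry Pool.Agent.Y116.UV Pool.Agent.Run7.h902

namespace Pool.Agent.Results.MP_1fe969_ag.ConfigurationSurfaces

/-- **Theorem.** For all prime numbers `p` and `ℓ` the Frobenius acts semisimply on `H^2` of all smooth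
projective surfaces over finite fields of characteristic `p` if and only if it acts semisimply on
`Gr^W_2 H^2_c` of the smooth integral moduli spaces over `𝔽_p` of dimension at most `2` of configurations of
points in the plane containing the frame. -/
theorem result {p l : ℕ} [Fact p.Prime] [Fact l.Prime] (E : Cz.Frobenius p l) :
    (∀ Y : Sch (ZMod p), Cw.SmoothProjective Y → topologicalKrullDim Y.left = (2 : ℕ) →
      (E.F Y).IsSemisimple) ↔
    ∀ (A : Type) [CommRing A] [Algebra (ZMod p) A] [Algebra.FiniteType (ZMod p) A], IsDomain A →
      Algebra.Smooth (ZMod p) A → Cx.FrameModuli (ZMod p) A → ringKrullDim A ≤ (2 : ℕ) →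
        (E.F (aff (ZMod p) A)).IsSemisimple :=
  Cz.semisimple_iff E

end Pool.Agent.Results.MP_1fe969_ag.ConfigurationSurfaces
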