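import Pool.Agent.Run7.h905.DK.Dx

/-!
# Semisimplicity of Frobenius at the eigenvalues `q ζ` for surfaces in Dickson pencils

Let `n = 2 g + 1 ≥ 3` be odd, `k` a field containing `c = ζ + ζ⁻¹`, `ζ` a primitive `n`-th root of unity (for `n = 3`
this is no condition, `c = -1`), `δ` in `k` not zero, `D_n(x) = D_n(x, δ)` the Dickson polynomial,
`D_n(u + δ / u) = u ^ n + (δ / u) ^ n`. For `b` in `k[t]` of degree `m` let `Q = D_n(b) - t` and let `X_b` be the surface

  `Q(t) y ^ 2 = D_n(x) - t`,

fibred over the line with coordinate `t` in hyperelliptic curves of genus `g`, `A` the Jacobian of the generic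
fibre over `K = k(t)`. There are the divisors `h_j(x) = 0, y = 1`: `h_0 = x - b`,
`h_j = x ^ 2 - c_j b x + b ^ 2 + δ (c_j ^ 2 - 4)`, `c_j = ζ ^ j + ζ ^ (-j)`, `1 ≤ j ≤ g`.

Theorem. Let `m ≥ 1`. For all large finite fields `k` with `q` elements, `n m ∣ q - 1`, of characteristic not
dividing `2 (n m - 1)`, ALL `c` and ALL `δ ≠ 0`

* for ALL `b₁` of degree `m`, for all but at most `n m + 1` elements `λ` of `k` at least
  `q / (2 (n m + 2) ^ (n m + 2))` of the `q` elements `μ` are such that `b = λ b₁ + μ`,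
* at least `q ^ (m + 1) / (4 (n m + 2) ^ (n m + 2))` of the `b` of degree `≤ m`

are of degree `m` and have the following property, over ALL the fields `K' = k'(t)`, `k'` any perfect extension
field of `k` in which the elements algebraic over `k` have degree prime to `2 n m` over `k` (all finite extensions of
degree `r` prime to `2 n m`, infinite algebraic ones, perfect closures of function fields, …): `Q` is
irreducible, `A(K')[2] = 0`, `A(K') / 2 A(K')` has `2 ^ g` elements and is generated by the classes of the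
`g + 1` divisors, the only relation being that the sum of all is zero, the rank of `A(K')` is exactly `g`, and
the 2-primary part of the Tate-Shafarevich group of `A` over `K'` is zero.

Consequence (not formalised): by Artin, Tate and Milne the Tate conjecture holds for `X_b` over all the fields
with `q ^ r` elements, `r` prime to `2 n m`, so the `r`-th power of Frobenius is semisimple at the eigenvalue
`q ^ r`, hence Frobenius is semisimple on the generalised eigenspaces of ALL the eigenvalues `q ζ'` with a root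
of unity `ζ'` of order prime to `2 n m` (the weaker form of Q1 is the case `ζ' = 1`), for all `ℓ`.

Proof. The descent by the divisors on the affine line `D_n(x) = t` (`MP_60d5ce_nt.TwistsByPrimes`) and a
form of Chebotarev's theorem over `k(μ)`, as in `MP_72e2e6_nt.DicksonPencils`, where only finite extensions
`k'`, pencils and fields containing `ζ` were treated.
-/

set_option autoImplicit false
set_option linter.all false

open Polynomial
open scoped Classical

namespace Pool.Agent.Results.MP_1fe969_ag.DicksonPencilSurfaces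

open Pool.Agent.Y713.Jac (J CoordRing)
open Pool.Agent.N352.Sha (ShaTrivial)
open Pool.Agent.Results.MP_60d5ce_nt.TwistsByPrimes (IsClass)

section defs

/-- `c = ζ + ζ⁻¹` for a primitive `n`-th root of unity `ζ` of an extension of `k` (`n` not zero in `k`):
`x ^ 2 - c x + 1` divides the `n`-th cyclotomic polynomial. -/
def IsCos {k : Type} [Field k] (n : ℕ) (c : k) : Prop := X ^ 2 - C c * X + 1 ∣ cyclotomic n k

/-- The polynomial `Q = D_n(b, δ) - t`. -/
noncomputable def Q {k : Type} [Field k] (n : ℕ) (δ : k) (b : k[X]) : k[X] :=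
  (dickson 1 δ n).comp b - X

/-- The polynomial `h = x ^ 2 - a b x + b ^ 2 + δ (a ^ 2 - 4)`. -/
noncomputable def quadratic {k : Type} [Field k] (a δ : k) (b : k[X]) : k[X][X] :=
  X ^ 2 - C (C a * b) * X + C (b ^ 2 + C (δ * (a ^ 2 - 4)))

/-- The factors `h_0 = x - b` and `h_j = x ^ 2 - c_j b x + b ^ 2 + δ (c_j ^ 2 - 4)`,
`c_j = ζ ^ j + ζ ^ (-j) = D_j(c, 1)`, `c = ζ + ζ⁻¹`, `1 ≤ j ≤ g`. -/
noncomputable def factors {k : Type} [Field k] (g : ℕ) (c δ : k) (b : k[X]) : Fin (g + 1) → k[X][X] :=
  Fin.cons (X - C b) fun j : Fin g => quadratic ((dickson 1 (1 : k) ((j : ℕ) + 1)).eval c) δ b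

variable {k : Type} (K : Type) [Field k] [Field K] [Algebra k[X] K]

/-- The monic polynomial over `K` whose zeros are those of `h` multiplied by `Q`. -/
noncomputable def scale (Q : k[X]) (h : k[X][X]) : K[X] :=
  (h.map (algebraMap k[X] K)).scaleRoots (algebraMap k[X] K Q)

/-- The polynomial `F` such that `C_b : Q y ^ 2 = D_n(x) - t` is isomorphic to `Y ^ 2 = F(X)` by `X = Q x`,
`Y = Q ^ ((n + 1) / 2) y`. -/
noncomputable def model (n : ℕ) (δ : k) (b : k[X]) : K[X] :=
  scale K (Q n δ b) ((dickson 1 δ n).map C - C X)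

/-- The Jacobian `J` of `y ^ 2 = F(x)` over `K` has no `K`-rational point of order two, the group
`J(K) / 2 J(K)` has `2 ^ r` elements, and the rank of `J(K)` is `r` if `J(K)` is finitely generated. -/
structure RankIs {K : Type} [Field K] (F : K[X]) (r : ℕ) : Prop where
  torsion : ∀ P : J 2 F K, P ^ 2 = 1 → P = 1
  index : (powMonoidHom 2 : J 2 F K →* J 2 F K).range.index = 2 ^ r
  rank : Group.FG (J 2 F K) → Module.finrank ℤ (Additive (J 2 F K)) = r

/-- The product of the `P_j`, `j ∈ S`, is a square only for the empty set and for the set of all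
indices. -/
def OnlyRelation {G : Type} [CommGroup G] {m : ℕ} (P : Fin m → G) : Prop :=
  ∀ S : Finset (Fin m), (∃ R, ∏ j ∈ S, P j = R ^ 2) ↔ S = ∅ ∨ S = Finset.univ

/-- The `P_j` generate the group modulo squares. -/
def GenerateModSquares {G : Type} [CommGroup G] {m : ℕ} (P : Fin m → G) : Prop :=
  ∀ x, ∃ (S : Finset (Fin m)) (R : G), x = (∏ j ∈ S, P j) * R ^ 2

/-- The classes `P_j` of the divisors `p_j(x) = 0, y = c(x)` generate `J(K)` modulo `2 J(K)`, `J` the
Jacobian of `y ^ 2 = F(x)`, and the only relation is that the sum of all of them is zero. -/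
def HasBasis {K : Type} [Field K] (F c : K[X]) {m : ℕ} (p : Fin m → K[X]) : Prop :=
  ∃ P : Fin m → J 2 F K, (∀ j, IsClass F (p j) c (P j)) ∧ GenerateModSquares P ∧ OnlyRelation P

/-- The classes in `A(K)`, `A` the Jacobian of `C_b`, of the divisors `h_j(x) = 0, y = 1`, i.e.
`Y = Q ^ (g + 1)`, generate `A(K)` modulo `2 A(K)`, and the only relation is that the sum of all of them is
zero. -/
def Basis (g : ℕ) (c δ : k) (b : k[X]) : Prop :=
  HasBasis (model K (2 * g + 1) δ b) (C (algebraMap k[X] K (Q (2 * g + 1) δ b) ^ (g + 1)))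
    fun j => scale K (Q (2 * g + 1) δ b) (factors g c δ b j)

/-- For the Jacobian `A` of `C_b`, `n = 2 g + 1`: `Q` is irreducible, `A(K)` has no element of order two,
`A(K) / 2 A(K)` has `2 ^ g` elements, the rank is `g` if `A(K)` is finitely generated, the classes of the
divisors `h_j(x) = 0, y = 1` generate `A(K) / 2 A(K)`, the only relation is that
the sum of all of them is zero, and the 2-primary part of the Tate-Shafarevich group is zero: every
continuous cocycle of the absolute Galois group of `K` with values in `A(K^sep)` whose class is of 2-power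
order and zero over the completions of `K` at all the places except possibly `t = ∞` is a coboundary. -/
structure Good [IsFractionRing k[X] K] (g : ℕ) (c δ : k) (b : k[X]) : Prop where
  prime : Irreducible (Q (2 * g + 1) δ b)
  rank : RankIs (model K (2 * g + 1) δ b) g
  basis : Basis K g c δ b
  sha : ShaTrivial 2 (model K (2 * g + 1) δ b) k[X]

/-- Every element of `k'` that is algebraic over `k` has degree prime to `N` over `k`. -/
def Tame (N : ℕ) (k k' : Type) [Field k] [Field k'] [Algebra k k'] : Prop :=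
  ∀ x : k', IsIntegral k x → Nat.Coprime N (minpoly k x).natDegree

/-- `b` is of degree `m` and `Good` over the fields `k'(t)` for all the perfect extension fields `k'` of `k` in
which the elements algebraic over `k` have degree prime to `2 n m`, `n = 2 g + 1`. -/
def GoodOverAll (g m : ℕ) (c δ : k) (b : k[X]) : Prop :=
  b.natDegree = m ∧ ∀ (k' K' : Type) [Field k'] [PerfectField k'] [Algebra k k'] [Field K']
    [Algebra k'[X] K'] [IsFractionRing k'[X] K'], Tame (2 * ((2 * g + 1) * m)) k k' →
    Good K' g (algebraMap k k' c) (algebraMap k k' δ) (b.map (algebraMap k k'))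

/-- For all `b₁` of degree `m` and all but at most `n m + 1` elements `l` of `k`, `n = 2 g + 1`, at least
`|k| / (2 (n m + 2) ^ (n m + 2))` elements `μ` of `k` are such that `b = l b₁ + μ` is `GoodOverAll`. -/
def InPencils (k : Type) [Field k] [Finite k] (g m : ℕ) (c δ : k) : Prop :=
  ∀ b₁ : k[X], b₁.natDegree = m → ∃ bad : Finset k, bad.card ≤ (2 * g + 1) * m + 1 ∧ ∀ l ∉ bad,
    Nat.card k ≤ 2 * ((2 * g + 1) * m + 2) ^ ((2 * g + 1) * m + 2) *
      {μ : k | GoodOverAll g m c δ (C l * b₁ + C μ)}.ncard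

/-- At least `|k| ^ (m + 1) / (4 (n m + 2) ^ (n m + 2))` of the polynomials `b = ∑ x_i t ^ i` of degree at most
`m` are `GoodOverAll`. -/
def PositiveProportion (k : Type) [Field k] [Finite k] (g m : ℕ) (c δ : k) : Prop :=
  Nat.card k ^ (m + 1) ≤ 4 * ((2 * g + 1) * m + 2) ^ ((2 * g + 1) * m + 2) *
    {x : Fin (m + 1) → k | GoodOverAll g m c δ (∑ i, C (x i) * X ^ (i : ℕ))}.ncard

end defs

open Run7.h905.DK Run7.h905.BS

theorem good_of {k : Type} (K : Type) [Field k] [PerfectField k] [Field K] [Algebra k[X] K]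
    [IsFractionRing k[X] K] {g : ℕ} {c δ : k} {b : k[X]} (h2 : (2 : k) ≠ 0)
    (hn : ((2 * g + 1 : ℕ) : k) ≠ 0) (hg : 1 ≤ g)
    (hc : IsCos (2 * g + 1) c) (hδ : δ ≠ 0) (hb : 1 ≤ b.natDegree)
    (hQ : Irreducible (Q (2 * g + 1) δ b))
    (hns : ∀ j : Fin g, ∀ w : k[X], ¬ Q (2 * g + 1) δ b ∣
      C (cc c (j + 1) ^ 2 - 4) * (b ^ 2 - C (4 * δ)) - w ^ 2) : Good K g c δ b := by
  obtain ⟨⟨P, h1, h3, h4⟩, h5, h6⟩ := critC K h2 hn hg hc hδ hb hQ hns
  refine ⟨hQ, ⟨h5.torsion, h5.index, h5.rank⟩, ⟨P, ?_, ?_, ?_⟩, h6⟩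
  · intro j
    obtain ⟨hD, hne, hcl⟩ := h1 j
    have ec : C (algebraMap k[X] K (QD δ (2 * g + 1) b) ^
        (((fa (D δ (2 * g + 1))).natDegree + 1) / 2)) * (((1 : k[X][X])).map (algebraMap k[X] K)).comp
          (C (algebraMap k[X] K (QD δ (2 * g + 1) b))⁻¹ * X) =
        C (algebraMap k[X] K (Q (2 * g + 1) δ b) ^ (g + 1)) := by
      rw [Polynomial.map_one, one_comp, mul_one, fa_deg (by rw [D_deg δ (by omega)]; omega),
        D_deg δ (by omega)]
      have e1 : (2 * g + 1 + 1) / 2 = g + 1 := by omega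
      rw [e1]
      rfl
    have h7 : IsClass (model K (2 * g + 1) δ b) (scale K (Q (2 * g + 1) δ b) (factors g c δ b j))
        (C (algebraMap k[X] K (QD δ (2 * g + 1) b) ^
          (((fa (D δ (2 * g + 1))).natDegree + 1) / 2)) * (((1 : k[X][X])).map (algebraMap k[X] K)).comp
            (C (algebraMap k[X] K (QD δ (2 * g + 1) b))⁻¹ * X)) (P j) := ⟨hD, hne, hcl⟩
    rw [ec] at h7
    exact h7
  · intro x
    obtain ⟨S, -, R, hR⟩ := h4 x
    exact ⟨S, R, hR⟩
  · intro S
    exact h3 S (Finset.subset_univ S)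

theorem goodOverAll_of {k : Type} [Field k] [PerfectField k] {g m : ℕ} {c δ : k} {b : k[X]}
    (h2 : (2 : k) ≠ 0) (hn : ((2 * g + 1 : ℕ) : k) ≠ 0) (hg : 1 ≤ g) (hm : 1 ≤ m)
    (hc : IsCos (2 * g + 1) c) (hδ : δ ≠ 0) (h : NiceC g m c δ b) : GoodOverAll g m c δ b := by
  refine ⟨h.deg, ?_⟩
  intro k' K' _ _ _ _ _ _ ht
  obtain ⟨h5, h6⟩ := niceC_ext hg hm h k' ht
  refine good_of K' ?_ ?_ hg (cos_map _ hc) ((_root_.map_ne_zero (algebraMap k k')).2 hδ) ?_ h5 h6
  · rw [← map_ofNat (algebraMap k k') 2]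
    exact (_root_.map_ne_zero (algebraMap k k')).2 h2
  · rw [← map_natCast (algebraMap k k')]
    exact (_root_.map_ne_zero (algebraMap k k')).2 hn
  · rw [natDegree_map, h.deg]
    exact hm

theorem result :
    -- for `n = 3` every field is allowed
    (∀ (k : Type) [Field k], IsCos 3 (-1 : k)) ∧
    -- positive proportion in all pencils and in total
    (∀ g m : ℕ, 1 ≤ g → 1 ≤ m → ∃ q₀ : ℕ, ∀ (k : Type) [Field k] [Finite k],
      (2 * g + 1) * m ∣ Nat.card k - 1 → ((2 * ((2 * g + 1) * m - 1) : ℕ) : k) ≠ 0 →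
      q₀ < Nat.card k → ∀ c δ : k, IsCos (2 * g + 1) c → δ ≠ 0 →
      InPencils k g m c δ ∧ PositiveProportion k g m c δ) := by
  refine ⟨?_, ?_⟩
  · intro k _
    unfold IsCos
    rw [cyclotomic_three]
    refine dvd_of_eq ?_
    rw [C_neg, C_1]
    ring
  · intro g m hg hm
    obtain ⟨C0, hC0⟩ := pencilC g m hg hm
    refine ⟨C0, ?_⟩
    intro k _ _ hdiv h6 hcard c δ hc hδ
    obtain ⟨h1, h2⟩ := hC0 k hdiv h6 hcard c δ hc hδ
    have h2k : (2 : k) ≠ 0 := by
      rw [Nat.cast_mul] at h6
      have := left_ne_zero_of_mul h6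
      exact_mod_cast this
    have key : ∀ b : k[X], NiceC g m c δ b → GoodOverAll g m c δ b :=
      fun b h => goodOverAll_of h2k (n_ne hdiv) hg hm hc hδ h
    refine ⟨?_, ?_⟩
    · intro b₁ hb₁
      obtain ⟨bad, h3, h4⟩ := h1 b₁ hb₁
      refine ⟨bad, h3, fun l hl => (h4 l hl).trans (Nat.mul_le_mul_left _
        (Set.ncard_le_ncard ?_ (Set.toFinite _)))⟩
      intro μ hμ
      exact key _ hμ
    · unfold PositiveProportion
      have e : 4 * ((2 * g + 1) * m + 2) ^ ((2 * g + 1) * m + 2) =
          2 * (2 * ((2 * g + 1) * m + 2) ^ ((2 * g + 1) * m + 2)) := by ring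
      rw [e]
      refine h2.trans (Nat.mul_le_mul_left _ (Set.ncard_le_ncard ?_ (Set.toFinite _)))
      intro x hx
      exact key _ hx

end Pool.Agent.Results.MP_1fe969_ag.DicksonPencilSurfaces
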