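import Pool.Agent.Run7.h735.SS.Thm

/-!
# Jordan blocks of Frobenius on `H^2` of cyclic coverings of the plane, and explicit semisimple families

Let `κ` be a finite field with `q` elements, `p` a prime, `q ≡ 1` modulo `p ^ s`, `C : F(x, y) = 0` a plane curve over `κ`, and
`S` a smooth projective model of the surface `w ^ (p ^ s) = F(x, y)`.  The second cohomology is the orthogonal sum of a space
of classes of curves and of the part `P` for the nontrivial characters of the covering group (`Cover`, `CyclicSurface`).
Let `Z = H / (1 - q T)` be the zeta function of `C` modulo `p`.  The results are about the strong form of the problem: all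
eigenvalues, for all `ℓ`.

**Theorem.**
1. If no power `f ^ (R + 1)` of an irreducible polynomial over the field with `p` elements divides `H`, `R ≥ 1`, then all
   Jordan blocks of Frobenius on `H^2(S)` have size at most `R`.  If `H` is squarefree then Frobenius is semisimple.
2. *Rational branch curves.*  Let `C` be parametrized by the line, `t ↦ (a(t), b(t))`, with at most two parameters over
   each point, and suppose that its double points are not split: the two parameters are conjugate over `κ`.  Let `G`
   be the set of the minimal polynomials of the parameters of the double points; their degrees are twice the degrees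
   `D` of the closed double points.  Suppose that `p ∤ D` for all of them.  Then the Jordan blocks have size at most the
   number of closed double points.  If there is only one closed double point, or if `p` is odd and the degrees `D` are
   divisible by different powers of `2`, then *Frobenius is semisimple on `H^2(S)`*.
3. *Iterated Kummer coverings.*  If `F = (…((y ^ p - a₁(x)) ^ p - a₂(x)) ^ p - …) ^ p - a_r(x)` and all branch polynomials
   `(…((- a_j) ^ p - a_(j+1)) ^ p - …) ^ p - a_r` are constants times powers of irreducible polynomials of degrees prime to
   `p`, then the Jordan blocks have size at most `p ^ r - 1`, whatever the degrees of the `a_j` are.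
4. In 3, for `p = 2`, Frobenius is semisimple if all branch polynomials but the first are powers of linear
   polynomials.  For `r = 2` this is the case `F = (y ^ 2 - a(x)) ^ 2 - c (x - b) ^ d`, `d` odd, with
   `a(x) ^ 2 - c (x - b) ^ d` a constant times a power of an irreducible polynomial of odd degree.

In 2, 3, 4 nothing has to be known about numbers of points; the geometric genus is not bounded, and `s` is arbitrary.
The hypotheses on the cohomology hold in 2 for example if the degrees of `a` and `b` are prime to each other and to `p`
and the double points are nodes.  If these degrees are at least `3` the surfaces are in general not dominated by products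
of curves, as far as I know.  For example (computed outside of Lean) let `C` be the curve `x = t ^ 3`,
`y = t ^ 4 + t ^ 2 + 3 t` over `𝔽_11`, which has three double points, conjugate over `𝔽_11`, and not split.  Then Frobenius is
semisimple on `H^2` of the surface `w ^ 5 = F(x, y)`, of geometric genus `2`; here `H = 1 + T ^ 3`.

Proof.  Modulo a prime above `p` the characteristic polynomial of Frobenius on the part of `P` for a character is
congruent to `H` (Euler products; starting file `W528/HS`, where the case of a squarefree `H` of the right degree is
treated).  By Poincaré duality with an eigenvalue `α` also `q ^ 2 / α` is an eigenvalue; both are integral, so they are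
not zero modulo `p`, and the multiplicity of `α` on the part is at most the multiplicity of a root of `H`.  Classes of
curves are eigenvectors of a power of Frobenius.  For rational curves with non-split double points `H = ∏ (1 + T ^ D)`
(`Run7/h735/RN`), and these factors are separable for `p ∤ D` and prime to each other for odd `p` if the powers of `2` in the
`D` are different.  For the iterated Kummer coverings `H` is computed in `Run7/h735/IK`.
-/

set_option autoImplicit false

universe u

namespace Pool.Agent.Results.MP_1fe969_ag.SemisimpleCyclicCoverings

open Polynomial Pool.Agent.H914 Pool.Agent.TH125.Gal Pool.Agent.Y130 Pool.Agent.Y134.TF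
  Pool.Agent.Run7.h735.TP Pool.Agent.Run7.h735.CP Pool.Agent.Run7.h735.IK Pool.Agent.Run7.h735.RN
  Pool.Agent.Run7.h735.SS

/-- **Jordan blocks of Frobenius on cyclic coverings of the plane.**  Let `S` be a smooth projective surface with the part
`S.P` of `H^2` such that the cohomology is the orthogonal sum of a space of classes of curves and of `S.P`.
(1) If `S` has a place for a cyclic covering `w ^ (p ^ s) = F(x, y)` of the plane, `H` is the quotient of the polynomials of
the zeta function of `F = 0` modulo `p`, and no `f ^ (R + 1)`, `f` irreducible, divides `H`, then the Jordan blocks of
Frobenius on `H^2(S)` have size at most `R`; if `R = 1` then Frobenius is semisimple.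
(2) If `F(x, y) = 0` is a curve parametrized by the line with non-split double points whose degrees are prime to `p` then
the Jordan blocks have size at most the number of closed double points; if there is at most one closed double point, or if
`p` is odd and the degrees are divisible by different powers of `2`, then Frobenius is semisimple.
(3) If `F` is the iterated Kummer polynomial of a list of length `r ≥ 1` whose branch polynomials are constants times powers
of irreducible polynomials of degrees prime to `p` then the Jordan blocks have size at most `p ^ r - 1`.
(4) If moreover `p = 2` and these degrees are `D, 1, …, 1` with `D` odd then Frobenius is semisimple. -/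
theorem result {k : Type u} [Field k] {𝒱 : VarClass k} {ops : CycleOps 𝒱}
    (W : WeilCohomology.{u, 0} ops) [IsAlgClosed W.K] {Γ : Type} [Group Γ] (χ : Γ →* W.Kˣ)
    (S : PVar W Γ) (h : Cover χ S 1) {p s : ℕ} (hp : p.Prime) (hs : 1 ≤ s) (κ : Type) [Field κ]
    [Fintype κ] :
    (∀ (H : (ZMod p)[X]) (R : ℕ), 1 ≤ R → PowerFree p H R →
      ∀ v : CyclicPlace χ S.act S.P p s H, JordanBound S v.φ R ∧ (R = 1 → Semisimple S v.φ)) ∧
    (∀ (a b : κ[X]) (G : Finset κ[X]) (F : MvPolynomial (Fin 2) κ), NonSplit a b G →
      IsImage F a b → (∀ g ∈ G, ¬ p ∣ g.natDegree / 2) →
      JordanFor χ S p s κ F (max 1 G.card) ∧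
      (G.card ≤ 1 ∨ (p ≠ 2 ∧
        Set.InjOn (fun g : κ[X] => (g.natDegree / 2).factorization 2) G) →
        SemisimpleFor χ S p s κ F)) ∧
    (∀ (l : List κ[X]) (t : List ℕ), l ≠ [] → HasDegrees p l t → (∀ D ∈ t, ¬ p ∣ D) →
      JordanFor χ S p s κ (iter p l) (p ^ l.length - 1)) ∧
    (∀ (l : List κ[X]) (D j : ℕ), p = 2 → Odd D → HasDegrees p l (D :: List.replicate j 1) →
      SemisimpleFor χ S p s κ (iter p l)) :=
  ⟨fun H R hR1 hR v => general h hp hs H R hR1 hR v,
    fun _ _ _ _ hG hF hpD => ⟨rational_jordan h hp hs hG hF hpD,
      fun hG' => rational_semisimple h hp hs hG hF hpD hG'⟩,
    fun _ _ hl0 hl ht => kummer_jordan h hp hs hl0 hl ht,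
    fun _ _ _ hp2 hD hl => tower_semisimple h hs hp2 hD hl⟩

end Pool.Agent.Results.MP_1fe969_ag.SemisimpleCyclicCoverings
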