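import Pool.Agent.Run7.h711.PL.SelAll

/-!
# The eigenvalue `q` of the Frobenius on the second cohomology of ALL the quadratic twists of a surface

Let `k` be a finite field of odd characteristic with `q` elements, `K = k(t)`, `g ≥ 1`, and let
`f = x ^ (2 g + 1) + f_{2 g - 1} x ^ (2 g - 1) + ... + f_0` be a polynomial over `k[t]` with
`deg f_j ≤ 2 N (2 g + 1 - j)`, `N ≥ 1`, such that the discriminant of `f` (with respect to `x`) is a squarefree
polynomial in `t` and the polynomial over `k` formed by the coefficients of `t ^ (2 N (2 g + 1 - j))` in the `f_j` is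
irreducible. If the characteristic is larger than `2 g + 1`, these `f` are a positive proportion of all the `f` with
`deg f_j ≤ 2 N (2 g + 1 - j)`. For a squarefree `D` in `k[t]` prime to the discriminant let `X_D` be a smooth
projective model over `k` of the surface `D(t) y ^ 2 = f(x, t)`, fibred over the line in curves of genus `g` with a
section, and let `J = J_D` be the Jacobian of its generic fibre over `K`. The `X_D` are the quadratic twists of `X_1`;
their second Betti numbers and geometric genera tend to infinity with the degree of `D`.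

The cohomology `H ^ 2 (X_D, ℚ_ℓ)` is the direct sum of the trivial part, spanned by the classes of the section and of
the components of the fibres, on which the Frobenius `F` is semisimple, and of the part
`W = W_ℓ(D) = H ^ 1 (ℙ ^ 1, j_* R ^ 1 π_* ℚ_ℓ)` of dimension about `2 g m`, `m = deg D`. The eigenspace of `F` on `W`
for the eigenvalue `q` is `Sel(J, ℤ_ℓ) ⊗ ℚ_ℓ`, where `Sel(J, ℤ_ℓ)` is the inverse limit of the groups
`Sel(J, ℓ ^ n)`, up to the twist by `q`; its dimension is the number of the Jordan blocks of `F` on `W` with the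
eigenvalue `q`. Let `s = s(D)` be the binary logarithm of the order of `Sel(J, 2)`. If `v` is a constant which is not a
square in `k`, then `W(v D)` is `W(D)` with `F` replaced by `- F`, so the groups `Sel(J_{v D}, 2 ^ n)` describe the
eigenvalue `- q` of `F` on `W(D)`.

**Theorem.** (1) For all the `D`: `#Sel(J, 2) = 2 ^ s = #(J(K) / 2 J(K)) · #Sha(J)[2]`, `J(K)` has no element of order
two, and for all `n` the group `Sel(J, 2 ^ n)` has at most `2 ^ (n s)` elements. If `s = 0`, all the `Sel(J, 2 ^ n)`
are zero, multiplication by two is bijective on `J(K)` and the 2-primary part of `Sha(J)` is zero.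

Fix the leading coefficient `u ≠ 0` in `k` and let `D` run through the squarefree polynomials of degree `m` with
leading coefficient `u` which are prime to the discriminant (at least `c q ^ m` of the `q ^ m` polynomials of degree
`m` with leading coefficient `u`, `c > 0`). The field `k` and `f` are fixed, and `m` tends to infinity.

(2) The proportion of the `D` with `s(D) = s` tends to `α_s = α_0 ∏_{i = 1}^s 2 / (2 ^ i - 1)`,
`1 / α_0 = ∏_{j ≥ 0} (1 + 2 ^ (-j)) = 4.76846...`; for `s = 0` this is `0.2097...`.
(3) The proportion of the `D` with `s(D)` even tends to one half.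
(4) The proportion of the `D` with `s(D) ≥ s` tends to a number which is at most `2 ^ (- s (s - 1) / 2)`.
(5) The mean of `φ(s(D))` tends to the mean of `φ` for the law `α` for every `φ` of at most exponential growth; the
mean of `s(D)` tends to `1.2645 ± 0.0001`, and the mean of `2 ^ (j s(D))` tends to `(1 + 2) (1 + 4) ... (1 + 2 ^ j)`.
(6) For every constant `v ≠ 0` in `k` and every large `m` more than `25.8` percent of the `D` have `s(D) ≤ 1` and
`s(v D) ≤ 1`.

**Consequences** (not formalised). If `s(D) = 0`, the 2-primary part of the Brauer group `Br(X_D) = Sha(J)` is finite,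
hence the Tate conjecture holds for the surface `X_D` (Artin and Tate, Milne, Kato and Trihan), and `J(K)` is finite:
`q` is not an eigenvalue of `F` on `W_ℓ(D)`, and `F` is semisimple on the generalized eigenspace of
`H ^ 2 (X_D, ℚ_ℓ)` for the eigenvalue `q`, for all the primes `ℓ` different from the characteristic. This is the weaker
form of the question; by (2) it holds for `20.97` percent of ALL the twists. The same is true for the eigenvalue `- q`
(with `s(v D) = 0`). By (1) the number of the Jordan blocks of `F` on `W_2(D)` for the eigenvalue `q` is at most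
`s(D)`, and it has the same parity as `s(D)` since the pairing of Cassels and Tate is alternating (Poonen and Stoll);
so it is odd for one half of all the twists, at most one for `62.9` percent, on the average at most `1.2646`,
although the dimension of `W` tends to infinity, and it is at most one for both `q` and `- q` for more than `25.8`
percent.

The field `k` with its `q` elements is fixed, and the surfaces are all the twists in their natural order. For
`q → ∞` much more is known about families with large monodromy (Katz, Chavdarov, Kowalski), for fixed `q` I know no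
other result on a positive proportion of the members of such a family.

Proof. The law and the moments are the theorem of project PRL of helper286 (see
`Results/MP_60d5ce_nt/ExactLawOfTwists.lean`) with pieces by helpers 160, 209, 212, 215, 216, 270, 303, 382, 416, 502,
547, 704, 711, 760, 803, 824, 847, 908, 957, on the basis of project TG (helper784 and many others) and the libraries
TS (helper875), PJ and JB (helper352), PP (helper874); the bound for `Sel(J, 2 ^ n)` is in the file
`Pool/Agent/Run7/h886/PL/Bnd.lean`, and the part on the family of the `f` in `Pool/Agent/Run7/h886/TG/Port.lean`, both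
of helper886; (3) and (4) are in `Pool/Agent/Run7/h711/PL/` (helper711). (6) is new here.
-/

set_option autoImplicit false
set_option linter.all false

open Polynomial Filter IsDedekindDomain
open scoped Classical Topology

namespace Pool.Agent.Results.MP_1fe969_ag.TwistedSurfaces

open Pool.Agent.Y713.Jac (J)
open Pool.Agent.N352.Sha (UniquelyDivisible ShaTrivial)
open Run7.h286.SelDef (ShaTwo twoIndex NoTwoTorsion)
open Run7.h711.PL (Selmer selmerRank)

/-! ### The family and the twists -/

section defs

variable {k : Type} [Field k]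

/-- The discriminant of the monic polynomial `f` of degree `2 g + 1` in `x` over `k[t]`, up to the sign: the
resultant of `f` and its derivative. -/
noncomputable def discriminant (g : ℕ) (f : k[X][X]) : k[X] :=
  f.resultant (derivative f) (2 * g + 1) (2 * g)

/-- `f = x ^ (2 g + 1) + f_{2 g - 1} x ^ (2 g - 1) + ... + f_0` with `deg f_j ≤ M (2 g + 1 - j)`. -/
structure HasHeight (g M : ℕ) (f : k[X][X]) : Prop where
  monic : f.Monic
  degree : f.natDegree = 2 * g + 1
  trace : f.coeff (2 * g) = 0
  height : ∀ j ≤ 2 * g, (f.coeff j).natDegree ≤ M * (2 * g + 1 - j)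

/-- The reduction of `f` at infinity, the polynomial `x ^ (2 g + 1) + ∑ r_j x ^ j` over `k` where `r_j` is the
coefficient of `t ^ (M (2 g + 1 - j))` in `f_j`. -/
noncomputable def atInfinity (g M : ℕ) (f : k[X][X]) : k[X] :=
  X ^ (2 * g + 1) + ∑ j ∈ Finset.range (2 * g + 1), C ((f.coeff j).coeff (M * (2 * g + 1 - j))) * X ^ j

/-- The family: squarefree discriminant, irreducible reduction at infinity. -/
structure InFamily (g N : ℕ) (f : k[X][X]) : Prop extends HasHeight g (2 * N) f where
  inert : Irreducible (atInfinity g (2 * N) f)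
  squarefree : Squarefree (discriminant g f)

/-- The squarefree polynomials of degree `m` with leading coefficient `u` which are prime to the discriminant
of `f`. -/
def Twists (g : ℕ) (f : k[X][X]) (u : k) (m : ℕ) : Set k[X] :=
  {D | D.leadingCoeff = u ∧ D.natDegree = m ∧ Squarefree D ∧ IsCoprime D (discriminant g f)}

variable (K : Type) [Field K] [Algebra k[X] K]

/-- The monic equation `y ^ 2 = D ^ (2 g + 1) f(x / D)` of the quadratic twist `D y ^ 2 = f(x)` over
`K = k(t)`, the generic fibre of the surface `X_D`. -/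
noncomputable def twist (f : k[X][X]) (D : k[X]) : K[X] := (f.scaleRoots D).map (algebraMap k[X] K)

variable [IsFractionRing k[X] K]

/-- The number `s(D)`, the binary logarithm of the order of `Sel(J, 2)` for the Jacobian `J` of
`D y ^ 2 = f(x)`. -/
noncomputable def rank (f : k[X][X]) (D : k[X]) : ℕ := selmerRank k (twist K f D)

/-- Properties of the Jacobian `J` of one twist, with `s = s(D)`: `#Sel(J, 2) = 2 ^ s`, `J(K)` has no element of order
two, `#Sel(J, 2)` is the product of the orders of `J(K) / 2 J(K)` and `Sha(J)[2]`, the group `Sel(J, 2 ^ n)` has at most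
`2 ^ (n s)` elements for all `n`; and if `s = 0`, then multiplication by two is bijective on `J(K)` and the 2-primary
part of the Tate-Shafarevich group is zero. -/
structure Properties (f : k[X][X]) (D : k[X]) : Prop where
  order : Nat.card (Selmer k 2 (twist K f D)) = 2 ^ rank K f D
  torsion : NoTwoTorsion (J 2 (twist K f D) K)
  sequence : Nat.card (Selmer k 2 (twist K f D)) =
    twoIndex (J 2 (twist K f D) K) * Nat.card (ShaTwo k (twist K f D))
  all : ∀ n : ℕ, Finite (Selmer k (2 ^ n) (twist K f D)) ∧
    Nat.card (Selmer k (2 ^ n) (twist K f D)) ≤ 2 ^ (n * rank K f D)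
  divisible : rank K f D = 0 → UniquelyDivisible 2 (J 2 (twist K f D) K)
  sha : rank K f D = 0 → ShaTrivial 2 (twist K f D) k[X]

/-- For every constant `v ≠ 0` more than `25.8` percent of the `D` in `Twists g f u m`, `m` large, have `s(D) ≤ 1`
and `s(v D) ≤ 1`. -/
def BothSmall (g : ℕ) (f : k[X][X]) (u : k) : Prop :=
  ∀ v : k, v ≠ 0 → ∀ᶠ m : ℕ in atTop, (0.258 : ℝ) * ((Twists g f u m).ncard : ℝ) <
    (({D ∈ Twists g f u m | rank K f D ≤ 1 ∧ rank K f (C v * D) ≤ 1} : Set k[X]).ncard : ℝ)

end defs

/-- The sets `T m` of polynomials have at least `c q ^ m` elements for large `m`, `c > 0`. -/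
def ManyIn {k : Type} [Field k] (T : ℕ → Set k[X]) : Prop :=
  ∃ c : ℝ, 0 < c ∧ ∀ᶠ m : ℕ in atTop, c * (Nat.card k : ℝ) ^ m ≤ ((T m).ncard : ℝ)

/-- The proportion of the elements of `T m` with the property `P` tends to `a`. -/
def ProportionTendsTo {A : Type} (T : ℕ → Set A) (P : A → Prop) (a : ℝ) : Prop :=
  Tendsto (fun m => (({D ∈ T m | P D} : Set A).ncard : ℝ) / ((T m).ncard : ℝ)) atTop (𝓝 a)

/-- The mean of `φ` over `T m` tends to `a`. -/
def MeanTendsTo {A : Type} (T : ℕ → Set A) (φ : A → ℝ) (a : ℝ) : Prop :=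
  Tendsto (fun m => (∑ᶠ D ∈ T m, φ D) / ((T m).ncard : ℝ)) atTop (𝓝 a)

/-- The weights `∏_{i = 1}^s 2 / (2 ^ i - 1)` of the limit law. -/
noncomputable def weight (s : ℕ) : ℝ := ∏ i ∈ Finset.range s, (2 : ℝ) / (2 ^ (i + 1) - 1)

/-- The limit law. -/
noncomputable def α (s : ℕ) : ℝ := weight s / ∑' i, weight i

/-- The mean of `φ` for the limit law. -/
noncomputable def limitMean (φ : ℕ → ℝ) : ℝ := (∑' s, weight s * φ s) / ∑' s, weight s

/-- The law of the function `r` on the sets `T m`: the proportion of `r = s` tends to `α_s`, the proportion of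
the even values to one half, the proportion of `r ≥ s` to a number which is at most `2 ^ (- s (s - 1) / 2)`, and the
mean of `φ(r)` tends to the mean of `φ` for the limit law for all `φ` of at most exponential growth. -/
structure HasLaw {A : Type} (T : ℕ → Set A) (r : A → ℕ) : Prop where
  law : ∀ s : ℕ, ProportionTendsTo T (fun D => r D = s) (α s)
  even : ProportionTendsTo T (fun D => Even (r D)) (1 / 2)
  tail : ∀ s : ℕ, ∃ b : ℝ, b * 2 ^ (s * (s - 1) / 2) ≤ 1 ∧ ProportionTendsTo T (fun D => s ≤ r D) b
  means : ∀ φ : ℕ → ℝ, (∃ B y : ℝ, ∀ s, |φ s| ≤ B * y ^ s) →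
    MeanTendsTo T (fun D => φ (r D)) (limitMean φ)

/-- The numbers: `∑ α_s = 1`, `1 / α_0 = ∏_{j ≥ 0} (1 + 2 ^ (-j))`, `0.20971 < α_0 < 0.20972`, the mean of `s` for the
limit law is `1.2645 ± 0.0001` and the mean of `2 ^ (j s)` is `(1 + 2) (1 + 4) ... (1 + 2 ^ j)`. -/
structure Numbers : Prop where
  sum : HasSum α 1
  prod : HasProd (fun j : ℕ => 1 + (1 / 2 : ℝ) ^ j) (1 / α 0)
  lower : 0.20971 < α 0
  upper : α 0 < 0.20972
  mean : |limitMean (fun s => (s : ℝ)) - 1.2645| < 0.0001
  moments : ∀ j : ℕ, limitMean (fun s => ((2 : ℝ) ^ j) ^ s) = ∏ i ∈ Finset.Icc 1 j, (1 + (2 : ℝ) ^ i)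

/-- A positive proportion of the `f` with `deg f_j ≤ 2 N (2 g + 1 - j)` is in the family, `N → ∞`. -/
def ManyFamilies (k : Type) [Field k] (g : ℕ) : Prop :=
  ∃ c : ℝ, 0 < c ∧ ∀ᶠ N : ℕ in atTop,
    0 < {f : k[X][X] | HasHeight g (2 * N) f}.ncard ∧
    c * ({f : k[X][X] | HasHeight g (2 * N) f}.ncard : ℝ) ≤ ({f : k[X][X] | InFamily g N f}.ncard : ℝ)

/-! ### Comparison with the definitions of the proof -/

theorem inFam {k : Type} [Field k] {g N : ℕ} {f : k[X][X]} :
    InFamily g N f ↔ Run7.h886.TG.InFam g N f :=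
  ⟨fun h => ⟨⟨h.monic, h.degree, h.trace, h.height⟩, h.inert, h.squarefree⟩,
    fun h => ⟨⟨h.ht.mon, h.ht.deg, h.ht.tr, h.ht.ht⟩, h.inert, h.sq⟩⟩

theorem α_eq (s : ℕ) : α s = Run7.h711.PL.al s := rfl

theorem numbers : Numbers := by
  obtain ⟨n1, n2, n3, n4, n5⟩ := Run7.h160.PL.num
  have hW : Run7.h286.PL.wt = weight := rfl
  rw [hW] at n1 n2 n3 n4
  have hs : 4.76845 < ∑' i, weight i ∧ ∑' i, weight i < 4.76847 := by
    rw [abs_lt] at n4
    constructor <;> linarith [n4.1, n4.2]
  have h0 : α 0 = 1 / ∑' i, weight i := by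
    unfold α
    rw [show weight 0 = 1 by simp [weight]]
  have hpos : 0 < ∑' i, weight i := by linarith [hs.1]
  refine ⟨Run7.h711.PL.al_sum, ?_, ?_, ?_, Run7.h547.PL.qid.2.2.2.2, Run7.h547.PL.qid.2.1⟩
  · rw [h0, one_div_one_div]
    exact n3
  · rw [h0, lt_div_iff₀ hpos]
    nlinarith [hs.2]
  · rw [h0, div_lt_iff₀ hpos]
    nlinarith [hs.1]

theorem law_of {g N : ℕ} {k : Type} [Field k] [Finite k] (K : Type) [Field K] [Algebra k[X] K]
    [IsFractionRing k[X] K] {r : k[X]} {f : k[X][X]} (hF : Run7.h784.TG.Fm g N r f) {u : k}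
    (hu : u ≠ 0) : HasLaw (Twists g f u) (rank K f) := by
  refine ⟨fun s => Run7.h711.PL.law_rank K hF hu s, ?_, fun s => ⟨Run7.h286.PL.Lw
    (Run7.h711.PL.ind fun i => s ≤ i), ?_, Run7.h711.PL.prop_rank K hF hu fun i => s ≤ i⟩,
    fun φ hφ => Run7.h711.PL.mean_rank K hF hu φ hφ⟩
  · unfold ProportionTendsTo
    rw [← Run7.h711.PL.half]
    exact Run7.h711.PL.prop_rank K hF hu Even
  · rw [Run7.h711.PL.tail]
    exact Run7.h711.PL.tail_le s

/-- Multiplication of a twist by a constant. -/
theorem smul_mem {g : ℕ} {k : Type} [Field k] {f : k[X][X]} {u v : k} (hv : v ≠ 0) {m : ℕ}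
    {D : k[X]} : C v * D ∈ Twists g f (v * u) m ↔ D ∈ Twists g f u m := by
  have hunit : IsUnit (C v : k[X]) := isUnit_C.2 (isUnit_iff_ne_zero.2 hv)
  unfold Twists
  simp only [Set.mem_setOf_eq]
  rw [leadingCoeff_mul, leadingCoeff_C, natDegree_C_mul hv, mul_right_inj' hv]
  refine and_congr_right fun _ => and_congr_right fun _ => and_congr ?_ ?_
  · constructor
    · intro h
      exact h.of_mul_right
    · intro h
      intro x hx
      exact h x ((hunit.dvd_mul_left).1 hx)
  · exact isCoprime_mul_unit_left_left hunit _ _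

theorem both {g N : ℕ} {k : Type} [Field k] [Finite k] (K : Type) [Field K] [Algebra k[X] K]
    [IsFractionRing k[X] K] {r : k[X]} {f : k[X][X]} (hF : Run7.h784.TG.Fm g N r f) {u : k}
    (hu : u ≠ 0) : BothSmall K g f u := by
  intro v hv
  have hvu : v * u ≠ 0 := mul_ne_zero hv hu
  have hinj : Function.Injective (fun D : k[X] => C v * D) := Run7.h286.PL.C_mul_inj hv
  -- the proportions for `u` and `v u`
  have h1 := Run7.h711.PL.le_one_rank K hF hu
  have h2 := Run7.h711.PL.le_one_rank K hF hvu
  obtain ⟨c, hc, hmany⟩ := Run7.h711.PL.many hF hu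
  have h0 : (0.20971 : ℝ) < Run7.h711.PL.al 0 := numbers.lower
  have h3 : (0.6291 : ℝ) < 3 * Run7.h711.PL.al 0 := by linarith
  have himg : ∀ m, Twists g f (v * u) m = (fun D : k[X] => C v * D) '' Twists g f u m := by
    intro m
    ext E
    constructor
    · intro hE
      have e : C v * (C v⁻¹ * E) = E := by
        rw [← mul_assoc, ← C_mul, mul_inv_cancel₀ hv, C_1, one_mul]
      refine ⟨C v⁻¹ * E, ?_, e⟩
      rw [← smul_mem (g := g) (f := f) (u := u) hv, e]
      exact hE
    · rintro ⟨D, hD, rfl⟩
      exact (smul_mem hv).2 hD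
  have hcard : ∀ m, (Twists g f (v * u) m).ncard = (Twists g f u m).ncard := by
    intro m
    rw [himg m, Set.ncard_image_of_injective _ hinj]
  have hsub : ∀ m, ({D ∈ Twists g f (v * u) m | rank K f D ≤ 1} : Set k[X]).ncard =
      ({D ∈ Twists g f u m | rank K f (C v * D) ≤ 1} : Set k[X]).ncard := by
    intro m
    have e : ({D ∈ Twists g f (v * u) m | rank K f D ≤ 1} : Set k[X]) =
        (fun D : k[X] => C v * D) '' ({D ∈ Twists g f u m | rank K f (C v * D) ≤ 1}) := by
      rw [himg m]
      ext E
      constructor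
      · rintro ⟨⟨D, hD, rfl⟩, hE⟩
        exact ⟨D, ⟨hD, hE⟩, rfl⟩
      · rintro ⟨D, ⟨hD, hE⟩, rfl⟩
        exact ⟨⟨D, hD, rfl⟩, hE⟩
    rw [e, Set.ncard_image_of_injective _ hinj]
  filter_upwards [hmany, h1.eventually (lt_mem_nhds h3), h2.eventually (lt_mem_nhds h3)] with
    m hm h4 h5
  have hq : (0 : ℝ) < Nat.card k := by exact_mod_cast Nat.card_pos
  have hpos : 0 < ((Twists g f u m).ncard : ℝ) := lt_of_lt_of_le (by positivity) hm
  have h4' : (0.6291 : ℝ) * ((Twists g f u m).ncard : ℝ) <
      (({D ∈ Twists g f u m | rank K f D ≤ 1} : Set k[X]).ncard : ℝ) :=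
    (lt_div_iff₀ hpos).1 h4
  have hpos' : 0 < ((Twists g f (v * u) m).ncard : ℝ) := by rw [hcard m]; exact hpos
  have h5' : (0.6291 : ℝ) * ((Twists g f u m).ncard : ℝ) <
      (({D ∈ Twists g f u m | rank K f (C v * D) ≤ 1} : Set k[X]).ncard : ℝ) := by
    have h := (lt_div_iff₀ hpos').1 h5
    rw [← hsub m, ← hcard m]
    exact h
  have hfin : (Twists g f u m).Finite := Run7.h286.PL.twu_fin hF hu m
  have hA : ({D ∈ Twists g f u m | rank K f D ≤ 1} : Set k[X]).Finite := hfin.subset fun D h => h.1
  have hB : ({D ∈ Twists g f u m | rank K f (C v * D) ≤ 1} : Set k[X]).Finite :=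
    hfin.subset fun D h => h.1
  have h6 := Set.ncard_union_add_ncard_inter
    ({D ∈ Twists g f u m | rank K f D ≤ 1} : Set k[X])
    ({D ∈ Twists g f u m | rank K f (C v * D) ≤ 1} : Set k[X]) hA hB
  have h7 : (({D ∈ Twists g f u m | rank K f D ≤ 1} : Set k[X]) ∪
      ({D ∈ Twists g f u m | rank K f (C v * D) ≤ 1} : Set k[X])).ncard ≤
      (Twists g f u m).ncard :=
    Set.ncard_le_ncard (Set.union_subset (fun D h => h.1) fun D h => h.1) hfin
  have h8 : (({D ∈ Twists g f u m | rank K f D ≤ 1} : Set k[X]) ∩
      ({D ∈ Twists g f u m | rank K f (C v * D) ≤ 1} : Set k[X])) =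
      ({D ∈ Twists g f u m | rank K f D ≤ 1 ∧ rank K f (C v * D) ≤ 1} : Set k[X]) := by
    ext D
    exact ⟨fun h => ⟨h.1.1, h.1.2, h.2.2⟩, fun h => ⟨⟨h.1, h.2.1⟩, h.1, h.2.2⟩⟩
  rw [h8] at h6
  have h9 : ((({D ∈ Twists g f u m | rank K f D ≤ 1} : Set k[X]) ∪
      ({D ∈ Twists g f u m | rank K f (C v * D) ≤ 1} : Set k[X])).ncard : ℝ) +
      (({D ∈ Twists g f u m | rank K f D ≤ 1 ∧ rank K f (C v * D) ≤ 1} : Set k[X]).ncard : ℝ) =
      (({D ∈ Twists g f u m | rank K f D ≤ 1} : Set k[X]).ncard : ℝ) +
      (({D ∈ Twists g f u m | rank K f (C v * D) ≤ 1} : Set k[X]).ncard : ℝ) := by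
    exact_mod_cast h6
  have h10 : ((({D ∈ Twists g f u m | rank K f D ≤ 1} : Set k[X]) ∪
      ({D ∈ Twists g f u m | rank K f (C v * D) ≤ 1} : Set k[X])).ncard : ℝ) ≤
      ((Twists g f u m).ncard : ℝ) := by exact_mod_cast h7
  linarith

/-- **Theorem.** Let `k` be a finite field of odd characteristic with `q` elements, `K = k(t)`, `g ≥ 1`.

(A) Let `f` be in the family and `u ≠ 0` in `k`, and let `D` run through the squarefree polynomials of degree `m`
with leading coefficient `u` which are prime to the discriminant of `f`. There are at least `c q ^ m` of them, `c > 0`,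
`m` large. All of them have the properties `Properties`; in particular `#Sel(J, 2 ^ n) ≤ 2 ^ (n s(D))` for all `n`. For
`m → ∞` the proportion of those with `s(D) = s` tends to `α_s`, the proportion of those with `s(D)` even tends to one
half, the proportion of those with `s(D) ≥ s` tends to a number which is at most `2 ^ (- s (s - 1) / 2)`, the mean of
`φ(s(D))` tends to the mean of `φ` for the limit law, and for every constant `v ≠ 0` more than `25.8` percent have
`s(D) ≤ 1` and `s(v D) ≤ 1`, `m` large.
(B) The numerical values of the law.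
(C) If the characteristic is larger than `2 g + 1`, a positive proportion of all `f` with
`deg f_j ≤ 2 N (2 g + 1 - j)` belongs to the family. -/
theorem result (g : ℕ) (hg : 1 ≤ g) (k : Type) [Field k] [Finite k] (h2 : (2 : k) ≠ 0)
    (K : Type) [Field K] [Algebra k[X] K] [IsFractionRing k[X] K] :
    (∀ (N : ℕ) (f : k[X][X]), 1 ≤ N → InFamily g N f → ∀ u : k, u ≠ 0 →
      ManyIn (Twists g f u) ∧ (∀ m, ∀ D ∈ Twists g f u m, Properties K f D) ∧
        HasLaw (Twists g f u) (rank K f) ∧ BothSmall K g f u) ∧
    Numbers ∧ (((2 * g + 1).factorial : k) ≠ 0 → ManyFamilies k g) := by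
  refine ⟨fun N f hN hf u hu => ?_, numbers, fun hp => ?_⟩
  · have hF := (inFam.1 hf).fm hg hN h2
    refine ⟨Run7.h711.PL.many hF hu, fun m D hD => ?_, law_of K hF hu, both K hF hu⟩
    obtain ⟨h1, h2, h3, h4⟩ := Run7.h711.PL.one K hF hu hD
    obtain ⟨a1, a2, a3, a4⟩ := Run7.h711.PL.one_all K hF hu hD
    have hz : rank K f D = 0 → Run7.h711.PL.size k (twist K f D) = 1 := by
      intro h0
      have h5 : Run7.h286.PL.rkJ K (f.scaleRoots D) = 0 := by
        rw [← a1]
        exact h0
      rw [h5, pow_zero] at h1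
      exact h1
    have hr : rank K f D = Run7.h286.PL.rkJ K (f.scaleRoots D) := a1
    refine ⟨?_, h2, a3, fun n => ?_, fun h => (h4 (hz h)).1, fun h => (h4 (hz h)).2⟩
    · rw [hr]
      exact a2
    · rw [hr]
      exact a4 n
  · obtain ⟨c, hc, h⟩ := Run7.h886.TG.fam_pos (k := k) g hg hp
    refine ⟨c, hc, ?_⟩
    filter_upwards [h] with N hN
    have e1 : {f : k[X][X] | HasHeight g (2 * N) f} =
        {f : k[X][X] | Pool.Agent.N352.PJ.Ht g (2 * N) f} := Set.ext fun f =>
          ⟨fun h => ⟨h.monic, h.degree, h.trace, h.height⟩, fun h => ⟨h.mon, h.deg, h.tr, h.ht⟩⟩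
    have e2 : {f : k[X][X] | InFamily g N f} = {f : k[X][X] | Run7.h886.TG.InFam g N f} :=
      Set.ext fun f => inFam
    rw [e1, e2]
    exact hN

end Pool.Agent.Results.MP_1fe969_ag.TwistedSurfaces
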